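import Pool.Agent.N343.TC.Stm

/-! Project TC (helper343), part TRANS (helper152): the assembly of the two-phase solution. -/

set_option autoImplicit false

open MeasureTheory Set Filter Topology Metric Complex
open scoped ContDiff RealInnerProductSpace ComplexConjugate

namespace Pool.Agent.N152.TC

open Pool.Agent.N343.TC

/-- smoothness of the real part minus a multiple of the square -/
theorem smooth_re (P : ℂ → ℂ) (U : Set ℂ) (hU : IsOpen U) (hP : DifferentiableOn ℂ P U) (κ : ℝ) :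
    ContDiffOn ℝ 1 (fun w : ℂ => -κ * ‖w‖ ^ 2 + (P w).re) U := by
  have h1 : ContDiffOn ℝ 1 P U := (hP.contDiffOn hU : ContDiffOn ℂ 1 P U).restrict_scalars ℝ
  have h2 : ContDiffOn ℝ 1 (fun w => (P w).re) U := Complex.reCLM.contDiff.comp_contDiffOn h1
  have h3 : ContDiff ℝ 1 (fun w : ℂ => ‖w‖ ^ 2) := contDiff_norm_sq ℝ
  exact ((contDiff_const.mul h3).contDiffOn).add h2

theorem smooth_im (P : ℂ → ℂ) (U : Set ℂ) (hU : IsOpen U) (hP : DifferentiableOn ℂ P U) :
    ContDiffOn ℝ 1 (fun w : ℂ => (P w).im) U := by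
  have h1 : ContDiffOn ℝ 1 P U := (hP.contDiffOn hU : ContDiffOn ℂ 1 P U).restrict_scalars ℝ
  exact Complex.imCLM.contDiff.comp_contDiffOn h1

theorem main (_hInv : S_INV) (hSmd : S_SMD) (hNull : S_NULL) (hGrad : S_GRAD) (hGlue : S_GLUE)
    (hExt : S_EXT) (hWk : S_WK) (hNd : S_ND) : S_TRANS := by
  classical
  intro σ q φ χ r₁ r₂ hσ hφ hχ hsub P Q UP UQ hUP hUQ hKP hKQ hP hQ hfr hout
  obtain ⟨hD, hDf, hDc, -⟩ := hSmd χ r₂ hχ
  obtain ⟨hΩ, hΩf, hΩc, hΩn⟩ := hSmd φ r₁ hφ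
  obtain ⟨D, hDdef⟩ : ∃ D, D = χ '' ball 0 1 := ⟨_, rfl⟩
  obtain ⟨Ω, hΩdef⟩ : ∃ Ω, Ω = φ '' ball 0 1 := ⟨_, rfl⟩
  rw [← hDdef] at hD hDf hDc hKP hKQ hfr ⊢
  rw [← hΩdef] at hΩ hΩf hΩc hKP hΩn hsub ⊢
  have hDo : IsOpen D := hD.1
  have hΩo : IsOpen Ω := hΩ.1
  have hDΩ : closure D ⊆ Ω := by
    rw [hDc]
    exact hsub
  have hDDc : D ⊆ closure D := subset_closure
  have hΩΩc : Ω ⊆ closure Ω := subset_closure
  have hfrD : ∀ z, z ∈ closure D → z ∉ D → z ∈ frontier D := by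
    intro z h1 h2
    rw [hDo.frontier_eq]
    exact ⟨h1, h2⟩
  -- the functions
  obtain ⟨u1, hu1⟩ : ∃ u1 : ℂ → ℝ, u1 = fun w => -(1 / (4 * σ)) * ‖w‖ ^ 2 + (Q w).re := ⟨_, rfl⟩
  obtain ⟨u2, hu2⟩ : ∃ u2 : ℂ → ℝ, u2 = fun w => -(1 / 4) * ‖w‖ ^ 2 + (P w).re := ⟨_, rfl⟩
  obtain ⟨h1, hh1⟩ : ∃ h1 : ℂ → ℝ, h1 = fun w => ((σ : ℂ) * Q w).im := ⟨_, rfl⟩
  obtain ⟨h2, hh2⟩ : ∃ h2 : ℂ → ℝ, h2 = fun w => (P w).im := ⟨_, rfl⟩
  obtain ⟨u, hu⟩ : ∃ u : ℂ → ℝ, u = fun z => if z ∈ closure D then u1 z else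
    if z ∈ closure Ω then u2 z else 0 := ⟨_, rfl⟩
  obtain ⟨h, hh⟩ : ∃ h : ℂ → ℝ, h = fun z => if z ∈ closure D then h1 z else h2 z := ⟨_, rfl⟩
  have uD : ∀ z, z ∈ closure D → u z = u1 z := by
    intro z hz
    rw [hu]
    exact if_pos hz
  have uO : ∀ z, z ∉ closure D → z ∈ closure Ω → u z = u2 z := by
    intro z hz hz'
    rw [hu]
    show (if z ∈ closure D then u1 z else if z ∈ closure Ω then u2 z else 0) = u2 z
    rw [if_neg hz, if_pos hz']
  have uN : ∀ z, z ∉ closure Ω → u z = 0 := by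
    intro z hz'
    have hz : z ∉ closure D := fun h => hz' (hΩΩc (hDΩ h))
    rw [hu]
    show (if z ∈ closure D then u1 z else if z ∈ closure Ω then u2 z else 0) = 0
    rw [if_neg hz, if_neg hz']
  have hhD : ∀ z, z ∈ closure D → h z = h1 z := by
    intro z hz
    rw [hh]
    exact if_pos hz
  have hhO : ∀ z, z ∉ closure D → h z = h2 z := by
    intro z hz
    rw [hh]
    exact if_neg hz
  have u12 : ∀ z ∈ frontier D, u1 z = u2 z := by
    intro z hz
    rw [hu1, hu2]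
    show -(1 / (4 * σ)) * ‖z‖ ^ 2 + (Q z).re = -(1 / 4) * ‖z‖ ^ 2 + (P z).re
    rw [(hfr z hz).1]
    field_simp
    ring
  have h12 : ∀ z ∈ frontier D, h1 z = h2 z := by
    intro z hz
    rw [hh1, hh2]
    show ((σ : ℂ) * Q z).im = (P z).im
    rw [Complex.im_ofReal_mul, (hfr z hz).2]
  -- compact sets
  have hK1 : IsCompact (closure D) := hD.2.2.1.isCompact_closure
  have hKΩ : IsCompact (closure Ω) := hΩ.2.2.1.isCompact_closure
  have hK2 : IsCompact (closure Ω \ D) := hKΩ.diff hDo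
  have hunion : closure D ∪ (closure Ω \ D) = closure Ω := by
    ext z
    constructor
    · rintro (hz | hz)
      · exact hΩΩc (hDΩ hz)
      · exact hz.1
    · intro hz
      by_cases hzD : z ∈ D
      · exact Or.inl (hDDc hzD)
      · exact Or.inr ⟨hz, hzD⟩
  have hint : closure D ∩ (closure Ω \ D) ⊆ interior (closure D ∪ (closure Ω \ D)) := by
    rw [hunion]
    intro z hz
    exact (hΩo.subset_interior_iff.2 hΩΩc) (hDΩ hz.1)
  have eu1 : EqOn u u1 (closure D) := fun z hz => uD z hz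
  have eu2 : EqOn u u2 (closure Ω \ D) := by
    intro z hz
    by_cases hzD : z ∈ closure D
    · rw [uD z hzD, u12 z (hfrD z hzD hz.2)]
    · exact uO z hzD hz.1
  have eh1 : EqOn h h1 (closure D) := fun z hz => hhD z hz
  have eh2 : EqOn h h2 (closure Ω \ D) := by
    intro z hz
    by_cases hzD : z ∈ closure D
    · rw [hhD z hzD, h12 z (hfrD z hzD hz.2)]
    · exact hhO z hzD
  have su1 : ContDiffOn ℝ 1 u1 UQ := by
    rw [hu1]
    exact smooth_re Q UQ hUQ hQ (1 / (4 * σ))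
  have su2 : ContDiffOn ℝ 1 u2 UP := by
    rw [hu2]
    exact smooth_re P UP hUP hP (1 / 4)
  have hσQ : DifferentiableOn ℂ (fun w => (σ : ℂ) * Q w) UQ := hQ.const_mul _
  have sh1 : ContDiffOn ℝ 1 h1 UQ := by
    rw [hh1]
    exact smooth_im _ UQ hUQ hσQ
  have sh2 : ContDiffOn ℝ 1 h2 UP := by
    rw [hh2]
    exact smooth_im P UP hUP hP
  obtain ⟨L, hL⟩ := hGlue (closure D) (closure Ω \ D) UQ UP u1 u2 u hK1 hK2 hUQ hUP hKQ hKP
    su1 su2 eu1 eu2 hint
  obtain ⟨L', hL'⟩ := hGlue (closure D) (closure Ω \ D) UQ UP h1 h2 h hK1 hK2 hUQ hUP hKQ hKP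
    sh1 sh2 eh1 eh2 hint
  rw [hunion] at hL hL'
  -- the boundary
  have hfrΩ : ∀ x ∈ frontier Ω, x ∉ closure D ∧ x ∈ closure Ω ∧ x ∉ Ω := by
    intro x hx
    rw [hΩo.frontier_eq] at hx
    exact ⟨fun h => hx.2 (hDΩ h), hx.1, hx.2⟩
  have u0 : ∀ x ∈ frontier Ω, u x = 0 := by
    intro x hx
    obtain ⟨g1, g2, -⟩ := hfrΩ x hx
    rw [uO x g1 g2]
    rw [hΩf] at hx
    obtain ⟨ζ, hζ, rfl⟩ := hx
    have := (hout ζ hζ).1
    rw [hu2]
    show -(1 / 4) * ‖φ ζ‖ ^ 2 + (P (φ ζ)).re = 0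
    linarith
  have hLip : LipschitzWith L u := hExt (closure Ω) u L isClosed_closure hL
    (fun x hx => u0 x (frontier_closure_subset hx)) uN
  have uout : ∀ x, x ∉ Ω → u x = 0 := by
    intro x hx
    by_cases hx' : x ∈ closure Ω
    · apply u0
      rw [hΩo.frontier_eq]
      exact ⟨hx', hx⟩
    · exact uN x hx'
  refine ⟨hD, hΩ, hDΩ, -q, u, ⟨L, hLip⟩, uout, ?_, ?_⟩
  · -- the weak equation
    refine hWk σ D Ω u h L L' hΩo hΩ.2.2.1 hLip hL' ?_
    have hnull : ∀ᵐ x : ℂ, x ∉ frontier D := by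
      rw [← measure_eq_zero_iff_ae_notMem, hDf]
      exact hNull χ r₂ hχ
    filter_upwards [hnull] with x hxf hxΩ
    by_cases hxD : x ∈ D
    · -- inside the core
      have hnb : D ∈ 𝓝 x := hDo.mem_nhds hxD
      have e1 : u =ᶠ[𝓝 x] u1 := by
        filter_upwards [hnb] with y hy using uD y (hDDc hy)
      have e2 : h =ᶠ[𝓝 x] h1 := by
        filter_upwards [hnb] with y hy using hhD y (hDDc hy)
      have hxUQ : x ∈ UQ := hKQ (hDDc hxD)
      have dQ : DifferentiableAt ℂ Q x := hQ.differentiableAt (hUQ.mem_nhds hxUQ)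
      have g1 : HasGradientAt u1 (-(2 * ((1 / (4 * σ) : ℝ) : ℂ)) * x + conj (deriv Q x)) x := by
        rw [hu1]
        exact (hGrad Q x (1 / (4 * σ)) dQ).1
      have g2 : HasGradientAt h1 (I * conj ((σ : ℂ) * deriv Q x)) x := by
        have := (hGrad (fun w => (σ : ℂ) * Q w) x 0 (dQ.const_mul _)).2
        rw [deriv_const_mul _ dQ] at this
        rw [hh1]
        exact this
      have g1' := g1.congr_of_eventuallyEq e1
      have g2' := g2.congr_of_eventuallyEq e2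
      refine ⟨g1'.differentiableAt, g2'.differentiableAt, ?_⟩
      rw [g1'.gradient, g2'.gradient]
      have hc : cond σ D x = σ := by
        unfold Pool.Agent.N343.TC.cond
        exact if_pos hxD
      rw [hc, map_mul, Complex.conj_ofReal, Complex.real_smul, Complex.real_smul]
      push_cast
      have hσ' : (σ : ℂ) ≠ 0 := by exact_mod_cast hσ.ne'
      have hI : I * (I * ((σ : ℂ) * conj (deriv Q x))) = -((σ : ℂ) * conj (deriv Q x)) := by
        rw [← mul_assoc, Complex.I_mul_I]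
        ring
      rw [hI]
      field_simp
      ring
    · -- outside
      have hxD' : x ∉ closure D := fun h => hxf (hfrD x h hxD)
      have hnb : Ω \ closure D ∈ 𝓝 x := (hΩo.sdiff isClosed_closure).mem_nhds ⟨hxΩ, hxD'⟩
      have e1 : u =ᶠ[𝓝 x] u2 := by
        filter_upwards [hnb] with y hy using uO y hy.2 (hΩΩc hy.1)
      have e2 : h =ᶠ[𝓝 x] h2 := by
        filter_upwards [hnb] with y hy using hhO y hy.2
      have hxUP : x ∈ UP := hKP ⟨hΩΩc hxΩ, hxD⟩
      have dP : DifferentiableAt ℂ P x := hP.differentiableAt (hUP.mem_nhds hxUP)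
      have g1 : HasGradientAt u2 (-(2 * ((1 / 4 : ℝ) : ℂ)) * x + conj (deriv P x)) x := by
        rw [hu2]
        exact (hGrad P x (1 / 4) dP).1
      have g2 : HasGradientAt h2 (I * conj (deriv P x)) x := by
        rw [hh2]
        exact (hGrad P x 0 dP).2
      have g1' := g1.congr_of_eventuallyEq e1
      have g2' := g2.congr_of_eventuallyEq e2
      refine ⟨g1'.differentiableAt, g2'.differentiableAt, ?_⟩
      rw [g1'.gradient, g2'.gradient]
      have hc : cond σ D x = 1 := by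
        unfold Pool.Agent.N343.TC.cond
        exact if_neg hxD
      rw [hc, one_smul, Complex.real_smul]
      push_cast
      have hI : I * (I * conj (deriv P x)) = -conj (deriv P x) := by
        rw [← mul_assoc, Complex.I_mul_I]
        ring
      rw [hI]
      ring
  · -- the normal derivative
    intro x hx
    obtain ⟨k1, k2, k3⟩ := hfrΩ x hx
    have hx' := hx
    rw [hΩf] at hx'
    obtain ⟨ζ, hζ, rfl⟩ := hx'
    have hn := hΩn ζ hζ
    refine ⟨_, hn, ?_⟩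
    have hxUP : φ ζ ∈ UP := hKP ⟨k2, fun h => k1 (hDDc h)⟩
    have dP : DifferentiableAt ℂ P (φ ζ) := hP.differentiableAt (hUP.mem_nhds hxUP)
    refine hNd Ω (UP \ closure D) (φ ζ) _ u u2 (-q) hn hx (hUP.sdiff isClosed_closure)
      ⟨hxUP, k1⟩ ?_ ?_
    · intro z hz
      exact uO z hz.1.2 hz.2
    · have g1 : HasGradientAt u2 (-(2 * ((1 / 4 : ℝ) : ℂ)) * (φ ζ) + conj (deriv P (φ ζ))) (φ ζ) := by
        rw [hu2]
        exact (hGrad P (φ ζ) (1 / 4) dP).1
      convert g1 using 1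
      rw [(hout ζ hζ).2, map_sub, map_mul, Complex.conj_ofReal, Complex.conj_conj, map_div₀,
        Complex.conj_conj, Complex.real_smul]
      have h2c : conj (2 : ℂ) = 2 := by
        have := Complex.conj_ofReal 2
        simpa using this
      rw [h2c]
      push_cast
      ring

end Pool.Agent.N152.TC
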